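import Pool.Agent.Hhelper76.DC.Br3

/-!
# One-endedness of the infinite cluster of the duplicated-current model

For every `d ≥ 1` and every `β > 0` the law of the duplicated-current percolation model exists,
is unique, and under it almost surely every infinite connected component has exactly one end.
-/

open MeasureTheory Filter Topology

namespace Pool.Agent.Results.MP_164cef_pr.OneEnd

open Pool.Agent.Hhelper76.DC

lemma isLoc_cU {d : ℕ} (T : Finset (Edg d)) (U : Set (Edg d)) :
    IsLoc T {c : Om d | om c ∈ cU T U} := by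
  intro c c' h hc
  have h1 : om c ∩ (T : Set (Edg d)) = om c' ∩ (T : Set (Edg d)) := by
    ext e
    simp only [Set.mem_inter_iff, Finset.mem_coe, om, Set.mem_ofPred_eq]
    exact and_congr_left fun he => by rw [h e he]
  simp only [cU, Set.mem_ofPred_eq] at hc ⊢
  rw [← h1]
  exact hc

lemma tanh_mem {β h : ℝ} (hβ : 0 < β) (hh : 0 < h) : Real.tanh (β * h) ∈ Set.Ioc (0 : ℝ) 1 :=
  ⟨(adm_tanh (mul_pos hβ hh) le_rfl).u0, (Real.tanh_lt_one _).le⟩

lemma tendsto_tanh {β : ℝ} (hβ : 0 < β) :
    Tendsto (fun h : ℝ => Real.tanh (β * h)) (𝓝[>] 0) (𝓝[>] 0) := by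
  rw [tendsto_nhdsWithin_iff]
  constructor
  · have h1 : Continuous fun h : ℝ => Real.tanh (β * h) := by
      simp_rw [Real.tanh_eq_sinh_div_cosh]
      exact (Real.continuous_sinh.comp (continuous_const.mul continuous_id)).div
        (Real.continuous_cosh.comp (continuous_const.mul continuous_id))
        fun x => (Real.cosh_pos _).ne'
    have h2 := h1.tendsto 0
    simp only [mul_zero, Real.tanh_zero] at h2
    exact h2.mono_left nhdsWithin_le_nhds
  · filter_upwards [self_mem_nhdsWithin] with h hh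
    exact (tanh_mem hβ hh).1

/-- **MP_164cef_pr, Q1: yes.** For all `d ≥ 1` and `β > 0` the law `μ` of the duplicated-current
percolation model exists and is unique, and `μ`-almost surely every infinite connected component
has exactly one end. -/
theorem result (d : ℕ) (hd : 1 ≤ d) (β : ℝ) (hβ : 0 < β) :
    ∃ μ : Measure (Set (Edg d)), IsDuplicatedCurrentLaw d β μ ∧
      (∀ ν : Measure (Set (Edg d)), IsDuplicatedCurrentLaw d β ν → ν = μ) ∧
      ∀ᵐ ω ∂μ, ∀ C : (graph ω).ConnectedComponent, C.supp.Infinite → OneEnded ω C := by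
  have hu := adm_tanh hβ (le_refl (0 : ℝ))
  obtain ⟨P, hP1, hP2⟩ := exists_P (d := d) hu.u0 hu.u1
  have hP : IsP (Real.tanh β) P := ⟨hu.u0, hu.u1, hP1, hP2⟩
  have hlaw : IsDuplicatedCurrentLaw d β (P.map om) := by
    refine ⟨Measure.isProbabilityMeasure_map measurable_om.aemeasurable, ?_⟩
    have h1 : ∀ (T : Finset (Edg d)) (U : Set (Edg d)), ∃ ψ : ℝ → ℝ,
        (∀ t ∈ Set.Ioc (0 : ℝ) 1, Tendsto (fun n => (Qm (Real.tanh β) t n).real
          {c : Om d | om c ∈ cU T U}) atTop (𝓝 (ψ t))) ∧
        Tendsto ψ (𝓝[>] 0) (𝓝 (P.real {c : Om d | om c ∈ cU T U})) := fun T U =>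
      Lim_loc hu.u0 hu.u1 P hP2 (isLoc_cU T U)
    choose ψ hψ1 hψ2 using h1
    refine ⟨fun h T U => ψ T U (Real.tanh (β * h)), ?_, ?_⟩
    · intro h hh T U
      have := hψ1 T U _ (tanh_mem hβ hh)
      refine this.congr fun n => ?_
      exact (finDim_eq hβ hh.le n T U).symm
    · intro T U
      have h3 := (hψ2 T U).comp (tendsto_tanh hβ)
      have h4 : (P.map om).real {ω | ω ∩ (T : Set (Edg d)) = U} =
          P.real {c : Om d | om c ∈ cU T U} :=
        map_measureReal_apply measurable_om (measurableSet_cU T U)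
      rw [h4]
      exact h3
  refine ⟨P.map om, hlaw, fun ν hν => law_unique hν hlaw, ?_⟩
  have hmset : MSet (id : Set (Edg d) → Set (Edg d)) := fun e =>
    measurableSet_setOfPred.2 (measurable_set_mem e)
  have hmeas : MeasurableSet {ω : Set (Edg d) | ∀ (S : Finset (Edg d)) (x y : Vtx d),
      InfC (ω \ S) x → InfC (ω \ S) y → Conn (ω \ S) x y} := by
    have : {ω : Set (Edg d) | ∀ (S : Finset (Edg d)) (x y : Vtx d),
        InfC (ω \ S) x → InfC (ω \ S) y → Conn (ω \ S) x y} =
        ⋂ (S : Finset (Edg d)), ⋂ (x : Vtx d), ⋂ (y : Vtx d),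
          ({ω : Set (Edg d) | InfC (ω \ S) x}ᶜ ∪ ({ω : Set (Edg d) | InfC (ω \ S) y}ᶜ ∪
            {ω : Set (Edg d) | Conn (ω \ S) x y})) := by
      ext ω
      simp only [Set.mem_ofPred_eq, Set.mem_iInter, Set.mem_union, Set.mem_compl_iff]
      refine forall_congr' fun S => forall_congr' fun x => forall_congr' fun y => ?_
      tauto
    rw [this]
    refine MeasurableSet.iInter fun S => MeasurableSet.iInter fun x =>
      MeasurableSet.iInter fun y => ?_
    have hm := hmset.sdiff (S : Set (Edg d))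
    exact (hm.infC x).compl.union ((hm.infC y).compl.union (hm.conn x y))
  have h5 : ∀ᵐ ω ∂(P.map om), ∀ (S : Finset (Edg d)) (x y : Vtx d),
      InfC (ω \ S) x → InfC (ω \ S) y → Conn (ω \ S) x y := by
    rw [ae_map_iff measurable_om.aemeasurable hmeas]
    exact hP.unique_inf hd
  filter_upwards [h5] with ω hω C hC
  exact oneEnded_of_conn ω hω C hC

end Pool.Agent.Results.MP_164cef_pr.OneEnd
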